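import Pool.Agent.Lib.MP_94420a_co_A.Glue

set_option autoImplicit false

namespace Pool.Agent.Lib.MP_94420a_co_A

open SimpleGraph Finset

variable {V B ι : Type}

/-- the glued graph is connected -/
theorem glue_connected (H : SimpleGraph V) (K : SimpleGraph B) (c : ι → B) (v0 : V)
    (hH : H.Connected) (hK : K.Connected) : (glue H K c v0).Connected := by
  have hb : ∀ x y : B, (glue H K c v0).Reachable (Sum.inl x) (Sum.inl y) := by
    intro x y
    let f : K →g glue H K c v0 := ⟨Sum.inl, fun {a b} h => h⟩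
    exact (hK.preconnected x y).map f
  have hc : ∀ (i : ι) (x y : V),
      (glue H K c v0).Reachable (Sum.inr (i, x)) (Sum.inr (i, y)) := by
    intro i x y
    let f : H →g glue H K c v0 := ⟨fun z => Sum.inr (i, z), fun {a b} h => ⟨rfl, h⟩⟩
    exact (hH.preconnected x y).map f
  have hbr : ∀ i : ι, (glue H K c v0).Reachable (Sum.inr (i, v0)) (Sum.inl (c i)) := by
    intro i
    have h1 : (glue H K c v0).Adj (Sum.inr (i, v0)) (Sum.inl (c i)) := ⟨rfl, rfl⟩
    exact h1.reachable
  obtain ⟨b0⟩ := hK.nonempty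
  have hall : ∀ z : B ⊕ (ι × V), (glue H K c v0).Reachable z (Sum.inl b0) := by
    intro z
    cases z with
    | inl x => exact hb x b0
    | inr w =>
      obtain ⟨i, w⟩ := w
      exact ((hc i w v0).trans (hbr i)).trans (hb _ _)
  have : Nonempty (B ⊕ (ι × V)) := ⟨Sum.inl b0⟩
  exact ⟨fun x y => (hall x).trans (hall y).symm⟩

/-- the degrees in the glued graph -/
theorem glue_degree [Fintype V] [Fintype B] [Fintype ι] (H : SimpleGraph V) (K : SimpleGraph B)
    (c : ι → B) (v0 : V) (r s : ℕ) (hK : ∀ b, (K.neighborSet b).ncard ≤ s)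
    (hc : ∀ b, {i | c i = b}.ncard ≤ r) (w : B ⊕ (ι × V)) :
    ((glue H K c v0).neighborSet w).ncard ≤ max (s + r) (1 + Fintype.card V) := by
  classical
  cases w with
  | inl b =>
    refine le_trans ?_ (le_max_left _ _)
    have h1 : (glue H K c v0).neighborSet (Sum.inl b) ⊆
        (Sum.inl '' (K.neighborSet b)) ∪ ((fun i => Sum.inr (i, v0)) '' {i | c i = b}) := by
      intro z hz
      have hz' : (glue H K c v0).Adj (Sum.inl b) z := hz
      cases z with
      | inl x => exact Or.inl ⟨x, hz', rfl⟩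
      | inr p =>
        obtain ⟨i, x⟩ := p
        have h2 : b = c i ∧ x = v0 := hz'
        exact Or.inr ⟨i, h2.1.symm, by rw [h2.2]⟩
    calc ((glue H K c v0).neighborSet (Sum.inl b)).ncard
        ≤ ((Sum.inl '' (K.neighborSet b)) ∪ ((fun i => (Sum.inr (i, v0) : B ⊕ (ι × V))) ''
            {i | c i = b})).ncard := Set.ncard_le_ncard h1 (Set.toFinite _)
      _ ≤ (Sum.inl '' (K.neighborSet b) : Set (B ⊕ (ι × V))).ncard +
          ((fun i => (Sum.inr (i, v0) : B ⊕ (ι × V))) '' {i | c i = b}).ncard :=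
          Set.ncard_union_le _ _
      _ ≤ s + r := Nat.add_le_add
          ((Set.ncard_image_le (Set.toFinite _)).trans (hK b))
          ((Set.ncard_image_le (Set.toFinite _)).trans (hc b))
  | inr p =>
    obtain ⟨i, x⟩ := p
    refine le_trans ?_ (le_max_right _ _)
    have h1 : (glue H K c v0).neighborSet (Sum.inr (i, x)) ⊆
        {Sum.inl (c i)} ∪ ((fun y => Sum.inr (i, y)) '' (Set.univ : Set V)) := by
      intro z hz
      have hz' : (glue H K c v0).Adj (Sum.inr (i, x)) z := hz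
      cases z with
      | inl d =>
        have h2 : d = c i ∧ x = v0 := hz'
        exact Or.inl (by rw [h2.1]; rfl)
      | inr q =>
        obtain ⟨j, y⟩ := q
        have h2 : i = j ∧ H.Adj x y := hz'
        exact Or.inr ⟨y, trivial, by rw [h2.1]⟩
    calc ((glue H K c v0).neighborSet (Sum.inr (i, x))).ncard
        ≤ ({Sum.inl (c i)} ∪ ((fun y => (Sum.inr (i, y) : B ⊕ (ι × V))) '' (Set.univ : Set V))).ncard :=
          Set.ncard_le_ncard h1 (Set.toFinite _)
      _ ≤ ({Sum.inl (c i)} : Set (B ⊕ (ι × V))).ncard +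
          ((fun y => (Sum.inr (i, y) : B ⊕ (ι × V))) '' (Set.univ : Set V)).ncard :=
          Set.ncard_union_le _ _
      _ ≤ 1 + Fintype.card V := by
          refine Nat.add_le_add (by rw [Set.ncard_singleton]) ?_
          refine (Set.ncard_image_le (Set.toFinite _)).trans ?_
          rw [Set.ncard_univ, Nat.card_eq_fintype_card]

/-- the degrees of a path are at most two -/
theorem path_degree (L : ℕ) (b : Fin L) : ((pathGraph L).neighborSet b).ncard ≤ 2 := by
  classical
  have h1 : (pathGraph L).neighborSet b ⊆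
      {v : Fin L | b.val + 1 = v.val} ∪ {v : Fin L | v.val + 1 = b.val} := by
    intro v hv
    have hv' : (pathGraph L).Adj b v := hv
    rw [pathGraph_adj] at hv'
    exact hv'
  have h2 : {v : Fin L | b.val + 1 = v.val}.ncard ≤ 1 := by
    rw [Set.ncard_le_one]
    intro x hx y hy
    have hx' : b.val + 1 = x.val := hx
    have hy' : b.val + 1 = y.val := hy
    exact Fin.ext (by omega)
  have h3 : {v : Fin L | v.val + 1 = b.val}.ncard ≤ 1 := by
    rw [Set.ncard_le_one]
    intro x hx y hy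
    have hx' : x.val + 1 = b.val := hx
    have hy' : y.val + 1 = b.val := hy
    exact Fin.ext (by omega)
  calc ((pathGraph L).neighborSet b).ncard
      ≤ ({v : Fin L | b.val + 1 = v.val} ∪ {v : Fin L | v.val + 1 = b.val}).ncard :=
        Set.ncard_le_ncard h1 (Set.toFinite _)
    _ ≤ {v : Fin L | b.val + 1 = v.val}.ncard + {v : Fin L | v.val + 1 = b.val}.ncard :=
        Set.ncard_union_le _ _
    _ ≤ 2 := by omega

/-- the fibres of the attaching map -/
theorem fibre (t r L : ℕ) (h : t ≤ L) (b : Fin L) :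
    {i : Fin t × Fin r | Fin.castLE h i.1 = b}.ncard ≤ r := by
  classical
  have h1 : Set.InjOn (fun i : Fin t × Fin r => i.2) {i : Fin t × Fin r | Fin.castLE h i.1 = b} := by
    intro x hx y hy hxy
    have hx' : Fin.castLE h x.1 = b := hx
    have hy' : Fin.castLE h y.1 = b := hy
    have h2 : Fin.castLE h x.1 = Fin.castLE h y.1 := hx'.trans hy'.symm
    have h3 : x.1 = y.1 := Fin.castLE_injective h h2
    exact Prod.ext h3 hxy
  rw [← Set.InjOn.ncard_image h1]
  refine (Set.ncard_le_ncard (Set.subset_univ _) (Set.toFinite _)).trans ?_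
  rw [Set.ncard_univ, Nat.card_eq_fintype_card, Fintype.card_fin]

/-- One application of the gluing: if all connected graphs on `n` vertices with degrees at most
`r + h + 2` have path decompositions with at most `M` paths, and `t (r h + 1) ≤ n`, then the connected
graph `H` on `h` vertices has one with `q` paths, `2 t r q ≤ 2 M + t r`. -/
theorem one_step [Fintype V] (H : SimpleGraph V) (hH : H.Connected) (n t r : ℕ) (M : ℕ)
    (ht : 0 < t) (hr : 0 < r)
    (hn : t * (r * Fintype.card V + 1) ≤ n)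
    (hyp : ∀ (W : Type) [Fintype W] (G : SimpleGraph W), Fintype.card W = n → G.Connected →
        (∀ w, (G.neighborSet w).ncard ≤ r + Fintype.card V + 2) →
        ∃ (k : ℕ) (u v : Fin k → W) (p : (i : Fin k) → G.Walk (u i) (v i)),
          k ≤ M ∧ (∀ i, (p i).IsPath) ∧ ∀ e ∈ G.edgeSet, ∃! i, e ∈ (p i).edges) :
    ∃ (q : ℕ) (u v : Fin q → V) (p : (i : Fin q) → H.Walk (u i) (v i)),
      2 * (t * r * q) ≤ 2 * M + t * r ∧ (∀ i, (p i).IsPath) ∧
      ∀ e ∈ H.edgeSet, ∃! i, e ∈ (p i).edges := by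
  classical
  obtain ⟨v0⟩ := hH.nonempty
  have hL : t ≤ n - t * r * Fintype.card V := by
    have h1 : t * (r * Fintype.card V + 1) = t * r * Fintype.card V + t := by ring
    omega
  have hle : t * r * Fintype.card V ≤ n := by
    have h1 : t * (r * Fintype.card V + 1) = t * r * Fintype.card V + t := by ring
    omega
  obtain ⟨L, hL2⟩ : ∃ L, n - t * r * Fintype.card V = L + 1 :=
    ⟨n - t * r * Fintype.card V - 1, by omega⟩
  rw [hL2] at hL
  let c : Fin t × Fin r → Fin (L + 1) := fun i => Fin.castLE hL i.1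
  have hcard : Fintype.card (Fin (L + 1) ⊕ ((Fin t × Fin r) × V)) = n := by
    rw [Fintype.card_sum, Fintype.card_fin, Fintype.card_prod, Fintype.card_prod, Fintype.card_fin,
      Fintype.card_fin]
    omega
  have hcon := glue_connected H (pathGraph (L + 1)) c v0 hH (pathGraph_connected L)
  have hdeg : ∀ w, ((glue H (pathGraph (L + 1)) c v0).neighborSet w).ncard ≤
      r + Fintype.card V + 2 := by
    intro w
    refine (glue_degree H (pathGraph (L + 1)) c v0 r 2 (path_degree (L + 1))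
      (fun b => fibre t r (L + 1) hL b) w).trans ?_
    rw [max_le_iff]
    constructor <;> omega
  obtain ⟨k, u, v, p, hk, hp, hd⟩ := hyp _ _ hcard hcon hdeg
  have : Nonempty (Fin t × Fin r) := ⟨(⟨0, ht⟩, ⟨0, hr⟩)⟩
  obtain ⟨q, u', v', p', hq, hp', hd'⟩ := extract H (pathGraph (L + 1)) c v0 k u v p hp hd
  refine ⟨q, u', v', p', ?_, hp', hd'⟩
  rw [Fintype.card_prod, Fintype.card_fin, Fintype.card_fin] at hq
  omega

/-- The asymptotic bound gives the exact one. -/
theorem exact_of_asymptotic (a : ℝ) (ha : 0 ≤ a)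
    (hyp : ∀ (D : ℕ) (ε : ℝ), 0 < ε → ∀ N : ℕ, ∃ n : ℕ, N ≤ n ∧
      ∀ (W : Type) [Fintype W] (G : SimpleGraph W), Fintype.card W = n → G.Connected →
        (∀ w, (G.neighborSet w).ncard ≤ D) →
        ∃ (k : ℕ) (u v : Fin k → W) (p : (i : Fin k) → G.Walk (u i) (v i)),
          (k : ℝ) ≤ (a + ε) * n ∧ (∀ i, (p i).IsPath) ∧
          ∀ e ∈ G.edgeSet, ∃! i, e ∈ (p i).edges)
    (V : Type) [Fintype V] (H : SimpleGraph V) (hH : H.Connected) :
    ∃ (k : ℕ) (u v : Fin k → V) (p : (i : Fin k) → H.Walk (u i) (v i)),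
      (k : ℝ) ≤ a * Fintype.card V + 1 / 2 ∧ (∀ i, (p i).IsPath) ∧
      ∀ e ∈ H.edgeSet, ∃! i, e ∈ (p i).edges := by
  classical
  set h : ℕ := Fintype.card V with hh
  -- the general step
  have step : ∀ δ : ℝ, 0 < δ → ∃ (q : ℕ) (u v : Fin q → V) (p : (i : Fin q) → H.Walk (u i) (v i)),
      (q : ℝ) ≤ a * h + 1 / 2 + δ ∧ (∀ i, (p i).IsPath) ∧
      ∀ e ∈ H.edgeSet, ∃! i, e ∈ (p i).edges := by
    intro δ hδ
    -- choose ε
    obtain ⟨r, hr⟩ := exists_nat_gt (3 * (a + 1) / δ)
    obtain ⟨T, hT⟩ := exists_nat_gt (3 * (a + 1) * (h + 1) / δ)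
    have hrpos : (0 : ℝ) < r := lt_of_le_of_lt (by positivity) hr
    have hTpos : (0 : ℝ) < T := lt_of_le_of_lt (by positivity) hT
    have hr0 : 0 < r := by exact_mod_cast hrpos
    have hT0 : 0 < T := by exact_mod_cast hTpos
    set ε : ℝ := min 1 (δ / (3 * (h + 1))) with hε
    have hεpos : 0 < ε := lt_min one_pos (by positivity)
    have hε1 : ε ≤ 1 := min_le_left _ _
    have hε2 : ε * h ≤ δ / 3 := by
      have h1 : ε ≤ δ / (3 * (h + 1)) := min_le_right _ _
      have h2 : ε * h ≤ δ / (3 * (h + 1)) * h := mul_le_mul_of_nonneg_right h1 (by positivity)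
      have h3 : δ / (3 * (h + 1)) * h ≤ δ / 3 := by
        rw [div_mul_eq_mul_div, div_le_div_iff₀ (by positivity) (by positivity)]
        nlinarith [hδ]
      exact h2.trans h3
    obtain ⟨n, hnN, hn⟩ := hyp (r + h + 2) ε hεpos (T * (r * h + 1))
    set t : ℕ := n / (r * h + 1) with ht
    have hpos : 0 < r * h + 1 := Nat.succ_pos _
    have htT : T ≤ t := by
      rw [ht, Nat.le_div_iff_mul_le hpos]
      exact hnN
    have htpos : 0 < t := lt_of_lt_of_le hT0 htT
    have htn : t * (r * h + 1) ≤ n := Nat.div_mul_le_self n _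
    have htn2 : n < (t + 1) * (r * h + 1) := by
      have h1 := Nat.lt_div_mul_add hpos (a := n)
      rw [← ht] at h1
      calc n < t * (r * h + 1) + (r * h + 1) := h1
        _ = (t + 1) * (r * h + 1) := by ring
    obtain ⟨q, u, v, p, hq, hp, hd⟩ := one_step H hH n t r ⌊(a + ε) * n⌋₊ htpos hr0 htn (by
      intro W _ G hW hG hD
      obtain ⟨k, u, v, p, hk, hp, hd⟩ := hn W G hW hG hD
      exact ⟨k, u, v, p, Nat.le_floor hk, hp, hd⟩)
    refine ⟨q, u, v, p, ?_, hp, hd⟩
    have hfl : ((⌊(a + ε) * n⌋₊ : ℕ) : ℝ) ≤ (a + ε) * n := Nat.floor_le (by positivity)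
    have hq' : 2 * ((t : ℝ) * r * q) ≤ 2 * ((a + ε) * n) + t * r := by
      have h1 : (2 * (t * r * q) : ℕ) ≤ 2 * ⌊(a + ε) * n⌋₊ + t * r := hq
      have h2 : ((2 * (t * r * q) : ℕ) : ℝ) ≤ ((2 * ⌊(a + ε) * n⌋₊ + t * r : ℕ) : ℝ) := by
        exact_mod_cast h1
      push_cast at h2
      linarith
    have htpos' : (0 : ℝ) < t := by exact_mod_cast htpos
    have hn2 : (n : ℝ) ≤ (t + 1) * (r * h + 1) := by
      have h1 : ((n : ℕ) : ℝ) ≤ (((t + 1) * (r * h + 1) : ℕ) : ℝ) := by exact_mod_cast htn2.le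
      push_cast at h1
      exact h1
    have htr : (0 : ℝ) < t * r := by positivity
    -- q ≤ (a+ε) n/(t r) + 1/2
    have h1 : (q : ℝ) ≤ (a + ε) * ((t + 1) * (r * h + 1)) / (t * r) + 1 / 2 := by
      have h2 : (a + ε) * n ≤ (a + ε) * ((t + 1) * (r * h + 1)) :=
        mul_le_mul_of_nonneg_left hn2 (by positivity)
      rw [← sub_le_iff_le_add, le_div_iff₀ htr]
      nlinarith [hq', h2]
    -- (t+1)(r h+1)/(t r) = h + 1/r + (r h + 1)/(t r)
    have h3 : (a + ε) * ((t + 1) * (r * h + 1)) / (t * r) =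
        (a + ε) * h + (a + ε) / r + (a + ε) * (r * h + 1) / (t * r) := by
      field_simp
    have h4 : (a + ε) / r ≤ δ / 3 := by
      rw [div_le_div_iff₀ hrpos (by norm_num)]
      rw [div_lt_iff₀ hδ] at hr
      nlinarith [hr, hε1]
    have hTt : (T : ℝ) ≤ t := by exact_mod_cast htT
    have hr1 : (1 : ℝ) ≤ r := by exact_mod_cast hr0
    have h5 : (a + ε) * (r * h + 1) / (t * r) ≤ δ / 3 := by
      rw [div_le_div_iff₀ htr (by norm_num)]
      rw [div_lt_iff₀ hδ] at hT
      have h6 : (r : ℝ) * h + 1 ≤ r * (h + 1) := by nlinarith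
      have h7 : (a + ε) * (r * h + 1) ≤ (a + 1) * (r * (h + 1)) :=
        mul_le_mul (by linarith) h6 (by positivity) (by positivity)
      have h8 : 3 * (a + 1) * (h + 1) ≤ δ * t := by
        have := mul_le_mul_of_nonneg_left hTt hδ.le
        nlinarith
      have h9 : 3 * (a + 1) * (h + 1) * r ≤ δ * t * r := mul_le_mul_of_nonneg_right h8 hrpos.le
      nlinarith
    rw [h3] at h1
    have h10 : (a + ε) * h ≤ a * h + δ / 3 := by nlinarith
    linarith
  -- the minimum
  have hex : ∃ q : ℕ, ∃ (u v : Fin q → V) (p : (i : Fin q) → H.Walk (u i) (v i)),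
      (∀ i, (p i).IsPath) ∧ ∀ e ∈ H.edgeSet, ∃! i, e ∈ (p i).edges := by
    obtain ⟨q, u, v, p, -, hp, hd⟩ := step 1 one_pos
    exact ⟨q, u, v, p, hp, hd⟩
  obtain ⟨u, v, p, hp, hd⟩ := Nat.find_spec hex
  refine ⟨Nat.find hex, u, v, p, ?_, hp, hd⟩
  apply le_of_forall_pos_le_add
  intro δ hδ
  obtain ⟨q, u, v, p, hq, hp, hd⟩ := step δ hδ
  have h1 : Nat.find hex ≤ q := Nat.find_min' hex ⟨u, v, p, hp, hd⟩
  have h2 : ((Nat.find hex : ℕ) : ℝ) ≤ q := by exact_mod_cast h1
  linarith

end Pool.Agent.Lib.MP_94420a_co_A
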