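import Mathlib

set_option autoImplicit false

namespace Pool.Agent.Lib.MP_94420a_co_A

open SimpleGraph Finset

variable {V B ι : Type}

/-- adjacency in the glued graph: copies of `H` indexed by `ι`, the vertex `v0` of copy `i` joined to the
vertex `c i` of the backbone `K`. -/
def gadj (H : SimpleGraph V) (K : SimpleGraph B) (c : ι → B) (v0 : V) :
    B ⊕ (ι × V) → B ⊕ (ι × V) → Prop
  | .inl a, .inl b => K.Adj a b
  | .inl a, .inr p => a = c p.1 ∧ p.2 = v0
  | .inr p, .inl a => a = c p.1 ∧ p.2 = v0
  | .inr p, .inr q => p.1 = q.1 ∧ H.Adj p.2 q.2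

/-- the glued graph -/
def glue (H : SimpleGraph V) (K : SimpleGraph B) (c : ι → B) (v0 : V) :
    SimpleGraph (B ⊕ (ι × V)) where
  Adj := gadj H K c v0
  symm := by
    constructor
    rintro (a | p) (b | q) h
    · exact K.symm.symm _ _ h
    · exact h
    · exact h
    · exact ⟨h.1.symm, h.2.symm⟩
  loopless := by
    constructor
    rintro (a | p) h
    · exact K.loopless.irrefl a h
    · exact H.loopless.irrefl p.2 h.2

open Classical in
/-- the retraction onto copy `i` -/
noncomputable def ret (i : ι) (v0 : V) : B ⊕ (ι × V) → V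
  | .inl _ => v0
  | .inr p => if p.1 = i then p.2 else v0

theorem ret_inl (i : ι) (v0 : V) (a : B) : ret (B := B) i v0 (Sum.inl a) = v0 := rfl

theorem ret_inr_self (i : ι) (v0 x : V) : ret (B := B) i v0 (Sum.inr (i, x)) = x := by
  simp [ret]

theorem ret_inr_ne {i j : ι} (h : j ≠ i) (v0 x : V) :
    ret (B := B) i v0 (Sum.inr (j, x)) = v0 := by
  simp [ret, h]

/-- a walk which starts in copy `i` and meets a vertex outside passes through `v0` of copy `i`. -/
theorem through (H : SimpleGraph V) (K : SimpleGraph B) (c : ι → B) (v0 : V) (i : ι)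
    {a b : B ⊕ (ι × V)} (p : (glue H K c v0).Walk a b) (y : V) (ha : a = Sum.inr (i, y))
    (z : B ⊕ (ι × V)) (hz : z ∈ p.support) (hzo : ∀ x, z ≠ Sum.inr (i, x)) :
    Sum.inr (i, v0) ∈ p.support := by
  induction p generalizing y with
  | nil =>
    rw [Walk.support_nil, List.mem_singleton] at hz
    exact absurd (hz.trans ha) (hzo y)
  | @cons a a' b h p ih =>
    subst ha
    rw [Walk.support_cons, List.mem_cons] at hz ⊢
    rcases hz with hz | hz
    · exact absurd hz (hzo y)
    · cases a' with
      | inl d =>
        left
        have h2 : d = c i ∧ y = v0 := h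
        rw [h2.2]
      | inr q =>
        right
        have h2 : i = q.1 ∧ H.Adj y q.2 := h
        exact ih q.2 (by rw [h2.1]) hz

/-- the part of a path inside copy `i` is a path of `H`. -/
theorem restrict (H : SimpleGraph V) (K : SimpleGraph B) (c : ι → B) (v0 : V) (i : ι)
    {a b : B ⊕ (ι × V)} (p : (glue H K c v0).Walk a b) (hp : p.IsPath) :
    ∃ q : H.Walk (ret i v0 a) (ret i v0 b), q.IsPath ∧
      (∀ x ∈ q.support, ∃ z ∈ p.support, ret i v0 z = x) ∧
      ∀ x y, s(x, y) ∈ q.edges ↔ s(Sum.inr (i, x), Sum.inr (i, y)) ∈ p.edges := by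
  classical
  induction p with
  | nil =>
    refine ⟨Walk.nil, Walk.IsPath.nil, ?_, ?_⟩
    · intro x hx
      rw [Walk.support_nil, List.mem_singleton] at hx
      exact ⟨_, Walk.start_mem_support _, hx.symm⟩
    · intro x y
      simp
  | @cons a a' b h p ih =>
    rw [Walk.cons_isPath_iff] at hp
    obtain ⟨q, hq, hqs, hqe⟩ := ih hp.1
    -- the collapsed step
    have collapse : ret i v0 a = ret i v0 a' →
        (∀ x y, s(Sum.inr (i, x), Sum.inr (i, y)) ≠ s(a, a')) →
        ∃ q : H.Walk (ret i v0 a) (ret i v0 b), q.IsPath ∧
          (∀ x ∈ q.support, ∃ z ∈ (Walk.cons h p).support, ret i v0 z = x) ∧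
          ∀ x y, s(x, y) ∈ q.edges ↔
            s(Sum.inr (i, x), Sum.inr (i, y)) ∈ (Walk.cons h p).edges := by
      intro he hne
      rw [he]
      refine ⟨q, hq, ?_, ?_⟩
      · intro x hx
        obtain ⟨z, hz, hzx⟩ := hqs x hx
        exact ⟨z, by rw [Walk.support_cons]; exact List.mem_cons_of_mem _ hz, hzx⟩
      · intro x y
        rw [hqe x y, Walk.edges_cons, List.mem_cons]
        constructor
        · intro h1
          exact Or.inr h1
        · rintro (h1 | h1)
          · exact absurd h1 (hne x y)
          · exact h1
    cases a with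
    | inl d =>
      cases a' with
      | inl d' =>
        refine collapse rfl ?_
        intro x y h1
        rw [Sym2.eq_iff] at h1
        rcases h1 with h1 | h1
        · exact absurd h1.1 (by simp)
        · exact absurd h1.1 (by simp)
      | inr w' =>
        have h2 : d = c w'.1 ∧ w'.2 = v0 := h
        refine collapse ?_ ?_
        · obtain ⟨j, w⟩ := w'
          have h3 : w = v0 := h2.2
          rw [ret_inl]
          by_cases hj : j = i
          · subst hj
            rw [ret_inr_self, h3]
          · rw [ret_inr_ne hj]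
        · intro x y h1
          rw [Sym2.eq_iff] at h1
          rcases h1 with h1 | h1
          · exact absurd h1.1 (by simp)
          · exact absurd h1.2 (by simp)
    | inr w =>
      obtain ⟨j, w⟩ := w
      cases a' with
      | inl d' =>
        have h2 : d' = c j ∧ w = v0 := h
        refine collapse ?_ ?_
        · rw [ret_inl]
          by_cases hj : j = i
          · subst hj
            rw [ret_inr_self, h2.2]
          · rw [ret_inr_ne hj]
        · intro x y h1
          rw [Sym2.eq_iff] at h1
          rcases h1 with h1 | h1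
          · exact absurd h1.2 (by simp)
          · exact absurd h1.1 (by simp)
      | inr w' =>
        obtain ⟨j', w'⟩ := w'
        have h2 : j = j' ∧ H.Adj w w' := h
        obtain ⟨h3, h4⟩ := h2
        subst h3
        by_cases hj : j = i
        · subst hj
          have ha : ret (B := B) j v0 (Sum.inr (j, w)) = w := ret_inr_self j v0 w
          have ha' : ret (B := B) j v0 (Sum.inr (j, w')) = w' := ret_inr_self j v0 w'
          have h5 : H.Adj (ret (B := B) j v0 (Sum.inr (j, w)))
              (ret (B := B) j v0 (Sum.inr (j, w'))) := by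
            rw [ha, ha']; exact h4
          refine ⟨Walk.cons h5 q, ?_, ?_, ?_⟩
          · rw [Walk.cons_isPath_iff]
            refine ⟨hq, ?_⟩
            intro hin
            obtain ⟨z, hz, hzx⟩ := hqs _ hin
            rw [ha] at hzx
            -- z is not `inr (j, w)`
            have hzne : z ≠ Sum.inr (j, w) := by
              intro h6
              exact hp.2 (h6 ▸ hz)
            have hzo : ∀ x, z ≠ Sum.inr (j, x) := by
              intro x h6
              apply hzne
              rw [h6] at hzx
              rw [ret_inr_self] at hzx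
              rw [h6, hzx]
            have hwv : w = v0 := by
              cases z with
              | inl d => rw [ret_inl] at hzx; exact hzx.symm
              | inr t =>
                obtain ⟨j2, t⟩ := t
                by_cases hj2 : j2 = j
                · subst hj2
                  exact absurd rfl (hzo t)
                · rw [ret_inr_ne hj2] at hzx
                  exact hzx.symm
            have h7 := through H K c v0 j p w' rfl z hz hzo
            apply hp.2
            rw [hwv]
            exact h7
          · intro x hx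
            rw [Walk.support_cons, List.mem_cons] at hx
            rcases hx with hx | hx
            · exact ⟨Sum.inr (j, w), Walk.start_mem_support _, hx.symm⟩
            · obtain ⟨z, hz, hzx⟩ := hqs x hx
              exact ⟨z, by rw [Walk.support_cons]; exact List.mem_cons_of_mem _ hz, hzx⟩
          · intro x y
            rw [Walk.edges_cons, Walk.edges_cons, List.mem_cons, List.mem_cons, hqe x y]
            have h8 : s(x, y) = s(ret (B := B) j v0 (Sum.inr (j, w)),
                ret (B := B) j v0 (Sum.inr (j, w'))) ↔
                (s(Sum.inr (j, x), Sum.inr (j, y)) : Sym2 (B ⊕ (ι × V))) =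
                  s(Sum.inr (j, w), Sum.inr (j, w')) := by
              rw [ha, ha', Sym2.eq_iff, Sym2.eq_iff]
              simp
            rw [h8]
        · refine collapse ?_ ?_
          · rw [ret_inr_ne hj, ret_inr_ne hj]
          · intro x y h1
            rw [Sym2.eq_iff] at h1
            rcases h1 with h1 | h1
            · have h9 := h1.1
              simp only [Sum.inr.injEq, Prod.mk.injEq] at h9
              exact hj h9.1.symm
            · have h9 := h1.1
              simp only [Sum.inr.injEq, Prod.mk.injEq] at h9
              exact hj h9.1.symm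

/-- copies met by a list of edges -/
noncomputable def tset [Fintype ι] (l : List (Sym2 (B ⊕ (ι × V)))) : Finset ι :=
  @Finset.filter ι (fun i => ∃ x y, s(Sum.inr (i, x), Sum.inr (i, y)) ∈ l)
    (fun _ => Classical.propDecidable _) Finset.univ

/-- bridges used by a list of edges -/
noncomputable def bset [Fintype ι] (c : ι → B) (v0 : V) (l : List (Sym2 (B ⊕ (ι × V)))) : Finset ι :=
  @Finset.filter ι (fun i => s(Sum.inl (c i), Sum.inr (i, v0)) ∈ l)
    (fun _ => Classical.propDecidable _) Finset.univ

theorem mem_tset [Fintype ι] (l : List (Sym2 (B ⊕ (ι × V)))) (i : ι) :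
    i ∈ tset l ↔ ∃ x y, s(Sum.inr (i, x), Sum.inr (i, y)) ∈ l := by
  simp [tset]

theorem mem_bset [Fintype ι] (c : ι → B) (v0 : V) (l : List (Sym2 (B ⊕ (ι × V)))) (i : ι) :
    i ∈ bset c v0 l ↔ s(Sum.inl (c i), Sum.inr (i, v0)) ∈ l := by
  simp [bset]

theorem tset_nil [Fintype ι] : tset ([] : List (Sym2 (B ⊕ (ι × V)))) = ∅ := by
  ext i
  rw [mem_tset]
  simp

theorem tset_cons_ne [Fintype ι] (e : Sym2 (B ⊕ (ι × V))) (l : List (Sym2 (B ⊕ (ι × V))))
    (he : ∀ i x y, s(Sum.inr (i, x), Sum.inr (i, y)) ≠ e) : tset (e :: l) = tset l := by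
  ext i
  rw [mem_tset, mem_tset]
  constructor
  · rintro ⟨x, y, h⟩
    rw [List.mem_cons] at h
    rcases h with h | h
    · exact absurd h (he i x y)
    · exact ⟨x, y, h⟩
  · rintro ⟨x, y, h⟩
    exact ⟨x, y, List.mem_cons_of_mem _ h⟩

theorem bset_cons_ne [Fintype ι] (c : ι → B) (v0 : V) (e : Sym2 (B ⊕ (ι × V)))
    (l : List (Sym2 (B ⊕ (ι × V))))
    (he : ∀ i, s(Sum.inl (c i), Sum.inr (i, v0)) ≠ e) : bset c v0 (e :: l) = bset c v0 l := by
  ext i
  rw [mem_bset, mem_bset, List.mem_cons]
  constructor
  · rintro (h | h)
    · exact absurd h (he i)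
    · exact h
  · intro h
    exact Or.inr h

theorem bset_cons_card [Fintype ι] (c : ι → B) (v0 : V) (i : ι) (e : Sym2 (B ⊕ (ι × V)))
    (l : List (Sym2 (B ⊕ (ι × V)))) (he : e = s(Sum.inl (c i), Sum.inr (i, v0))) (hl : e ∉ l) :
    (bset c v0 (e :: l)).card = (bset c v0 l).card + 1 := by
  classical
  have h1 : bset c v0 (e :: l) = insert i (bset c v0 l) := by
    ext j
    rw [Finset.mem_insert, mem_bset, mem_bset, List.mem_cons]
    constructor
    · rintro (h | h)
      · left
        rw [he, Sym2.eq_iff] at h
        rcases h with h | h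
        · have h2 := h.2
          simp only [Sum.inr.injEq, Prod.mk.injEq] at h2
          exact h2.1
        · exact absurd h.1 (by simp)
      · exact Or.inr h
    · rintro (h | h)
      · left
        rw [h, he]
      · exact Or.inr h
  rw [h1, Finset.card_insert_of_notMem]
  rw [mem_bset, ← he]
  exact hl

theorem tset_cons_in [Fintype ι] (i : ι) (x y : V)
    (l : List (Sym2 (B ⊕ (ι × V)))) [DecidableEq ι] :
    tset ((s(Sum.inr (i, x), Sum.inr (i, y)) : Sym2 (B ⊕ (ι × V))) :: l) = insert i (tset l) := by
  ext j
  rw [Finset.mem_insert, mem_tset, mem_tset]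
  constructor
  · rintro ⟨x', y', h⟩
    rw [List.mem_cons] at h
    rcases h with h | h
    · left
      rw [Sym2.eq_iff] at h
      rcases h with h | h
      · have h2 := h.1
        simp only [Sum.inr.injEq, Prod.mk.injEq] at h2
        exact h2.1
      · have h2 := h.1
        simp only [Sum.inr.injEq, Prod.mk.injEq] at h2
        exact h2.1
    · exact Or.inr ⟨x', y', h⟩
  · rintro (h | ⟨x', y', h⟩)
    · subst h
      exact ⟨x, y, List.mem_cons_self⟩
    · exact ⟨x', y', List.mem_cons_of_mem _ h⟩

/-- a path which meets `t` copies uses at least `2 t - 2` bridges. -/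
theorem count (H : SimpleGraph V) (K : SimpleGraph B) (c : ι → B) (v0 : V) [Fintype ι]
    {a b : B ⊕ (ι × V)} (p : (glue H K c v0).Walk a b) (hp : p.IsPath) :
    (∀ i x, a = Sum.inr (i, x) → 2 * (tset p.edges).card ≤ (bset c v0 p.edges).card + 2 ∧
      (i ∉ tset p.edges → 2 * (tset p.edges).card ≤ (bset c v0 p.edges).card)) ∧
    (∀ d, a = Sum.inl d → 2 * (tset p.edges).card ≤ (bset c v0 p.edges).card + 1) := by
  classical
  induction p with
  | nil =>
    rw [Walk.edges_nil, tset_nil]
    simp
  | @cons a a' b h p ih =>
    rw [Walk.cons_isPath_iff] at hp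
    have hne : s(a, a') ∉ p.edges := fun h1 => hp.2 (Walk.fst_mem_support_of_mem_edges _ h1)
    obtain ⟨ih1, ih2⟩ := ih hp.1
    rw [Walk.edges_cons]
    cases a with
    | inl d =>
      cases a' with
      | inl d' =>
        rw [tset_cons_ne, bset_cons_ne]
        · refine ⟨?_, ?_⟩
          · intro i x h1
            exact absurd h1 (by simp)
          · intro _ _
            exact ih2 d' rfl
        · intro i h1
          rw [Sym2.eq_iff] at h1
          rcases h1 with h1 | h1
          · exact absurd h1.2 (by simp)
          · exact absurd h1.2 (by simp)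
        · intro i x y h1
          rw [Sym2.eq_iff] at h1
          rcases h1 with h1 | h1
          · exact absurd h1.2 (by simp)
          · exact absurd h1.2 (by simp)
      | inr w' =>
        obtain ⟨i, w'⟩ := w'
        have h2 : d = c i ∧ w' = v0 := h
        obtain ⟨h3, h4⟩ := h2
        subst h3
        subst h4
        rw [tset_cons_ne, bset_cons_card c w' i _ _ rfl hne]
        · refine ⟨?_, ?_⟩
          · intro i x h1
            exact absurd h1 (by simp)
          · intro _ _
            have h5 := (ih1 i w' rfl).1
            omega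
        · intro i x y h1
          rw [Sym2.eq_iff] at h1
          rcases h1 with h1 | h1
          · exact absurd h1.1 (by simp)
          · exact absurd h1.2 (by simp)
    | inr w =>
      obtain ⟨i, w⟩ := w
      cases a' with
      | inl d' =>
        have h2 : d' = c i ∧ w = v0 := h
        obtain ⟨h3, h4⟩ := h2
        subst h3
        subst h4
        have h6 : (s(Sum.inr (i, w), Sum.inl (c i)) : Sym2 (B ⊕ (ι × V))) =
            s(Sum.inl (c i), Sum.inr (i, w)) := Sym2.eq_swap
        rw [tset_cons_ne, bset_cons_card c w i _ _ h6 hne]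
        · have h5 := ih2 (c i) rfl
          refine ⟨?_, ?_⟩
          · intro j x h1
            refine ⟨by omega, fun _ => by omega⟩
          · intro _ h1
            exact absurd h1 (by simp)
        · intro i x y h1
          rw [Sym2.eq_iff] at h1
          rcases h1 with h1 | h1
          · exact absurd h1.2 (by simp)
          · exact absurd h1.1 (by simp)
      | inr w' =>
        obtain ⟨i', w'⟩ := w'
        have h2 : i = i' ∧ H.Adj w w' := h
        obtain ⟨h3, h4⟩ := h2
        subst h3
        rw [bset_cons_ne, tset_cons_in]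
        · have h5 := ih1 i w' rfl
          refine ⟨?_, ?_⟩
          · intro j x h1
            have h7 : i = j := by
              simp only [Sum.inr.injEq, Prod.mk.injEq] at h1
              exact h1.1
            subst h7
            refine ⟨?_, fun h8 => absurd (Finset.mem_insert_self _ _) h8⟩
            by_cases h9 : i ∈ tset p.edges
            · rw [Finset.insert_eq_of_mem h9]
              exact h5.1
            · rw [Finset.card_insert_of_notMem h9]
              have := h5.2 h9
              omega
          · intro _ h1
            exact absurd h1 (by simp)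
        · intro j h1
          rw [Sym2.eq_iff] at h1
          rcases h1 with h1 | h1
          · exact absurd h1.1 (by simp)
          · exact absurd h1.1 (by simp)

theorem count2 (H : SimpleGraph V) (K : SimpleGraph B) (c : ι → B) (v0 : V) [Fintype ι]
    {a b : B ⊕ (ι × V)} (p : (glue H K c v0).Walk a b) (hp : p.IsPath) :
    2 * (tset p.edges).card ≤ (bset c v0 p.edges).card + 2 := by
  cases a with
  | inl d =>
    have := (count H K c v0 p hp).2 d rfl
    omega
  | inr w =>
    obtain ⟨i, w⟩ := w
    exact ((count H K c v0 p hp).1 i w rfl).1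

/-- from a path decomposition of the glued graph into `k` paths we get a path decomposition of
`H` into `q` paths, `2 m q ≤ 2 k + m`. -/
theorem extract (H : SimpleGraph V) (K : SimpleGraph B) (c : ι → B) (v0 : V) [Fintype ι]
    [Nonempty ι] (k : ℕ) (u v : Fin k → B ⊕ (ι × V))
    (p : (j : Fin k) → (glue H K c v0).Walk (u j) (v j)) (hp : ∀ j, (p j).IsPath)
    (hd : ∀ e ∈ (glue H K c v0).edgeSet, ∃! j, e ∈ (p j).edges) :
    ∃ (q : ℕ) (u' v' : Fin q → V) (p' : (j : Fin q) → H.Walk (u' j) (v' j)),
      2 * (Fintype.card ι * q) ≤ 2 * k + Fintype.card ι ∧ (∀ j, (p' j).IsPath) ∧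
      ∀ e ∈ H.edgeSet, ∃! j, e ∈ (p' j).edges := by
  classical
  have hb : ∑ j, (bset c v0 (p j).edges).card = Fintype.card ι := by
    have h1 : ∀ j, (bset c v0 (p j).edges).card =
        ∑ i : ι, if s(Sum.inl (c i), Sum.inr (i, v0)) ∈ (p j).edges then 1 else 0 := by
      intro j
      rw [← Finset.card_filter]
      congr 1
      ext i
      rw [mem_bset]
      simp
    rw [Finset.sum_congr rfl (fun j _ => h1 j), Finset.sum_comm]
    have h2 : ∀ i : ι, (∑ j : Fin k,
        if s(Sum.inl (c i), Sum.inr (i, v0)) ∈ (p j).edges then 1 else 0) = 1 := by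
      intro i
      rw [← Finset.card_filter, Finset.card_eq_one]
      have he : s(Sum.inl (c i), Sum.inr (i, v0)) ∈ (glue H K c v0).edgeSet := by
        rw [SimpleGraph.mem_edgeSet]
        exact ⟨rfl, rfl⟩
      obtain ⟨j, hj, hj2⟩ := hd _ he
      refine ⟨j, ?_⟩
      ext j'
      rw [Finset.mem_filter, Finset.mem_singleton]
      constructor
      · intro h3
        exact hj2 j' h3.2
      · intro h3
        subst h3
        exact ⟨Finset.mem_univ _, hj⟩
    rw [Finset.sum_congr rfl (fun i _ => h2 i)]
    simp
  have ht : 2 * ∑ j, (tset (p j).edges).card ≤ Fintype.card ι + 2 * k := by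
    rw [Finset.mul_sum]
    calc ∑ j, 2 * (tset (p j).edges).card ≤ ∑ j, ((bset c v0 (p j).edges).card + 2) :=
          Finset.sum_le_sum (fun j _ => count2 H K c v0 (p j) (hp j))
      _ = Fintype.card ι + 2 * k := by
          rw [Finset.sum_add_distrib, hb]
          simp [mul_comm]
  let S : ι → Finset (Fin k) := fun i => Finset.univ.filter (fun j => i ∈ tset (p j).edges)
  have hs : ∑ j, (tset (p j).edges).card = ∑ i, (S i).card := by
    have h1 : ∀ j, (tset (p j).edges).card =
        ∑ i : ι, if i ∈ tset (p j).edges then 1 else 0 := by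
      intro j
      rw [← Finset.card_filter]
      congr 1
      ext i
      simp
    rw [Finset.sum_congr rfl (fun j _ => h1 j), Finset.sum_comm]
    refine Finset.sum_congr rfl (fun i _ => ?_)
    rw [← Finset.card_filter]
  obtain ⟨i, -, hi⟩ := Finset.exists_min_image (Finset.univ : Finset ι) (fun i => (S i).card)
    Finset.univ_nonempty
  have hmin : Fintype.card ι * (S i).card ≤ ∑ i, (S i).card := by
    have := Finset.card_nsmul_le_sum (Finset.univ : Finset ι) (fun i => (S i).card) (S i).card
      (fun j hj => hi j hj)
    simpa using this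
  choose Q hQ hQs hQe using fun j => restrict H K c v0 i (p j) (hp j)
  let f : Fin (S i).card → Fin k := (S i).orderEmbOfFin rfl
  have hfS : ∀ t, f t ∈ S i := fun t => Finset.orderEmbOfFin_mem _ _ t
  have hfi : Function.Injective f := ((S i).orderEmbOfFin rfl).injective
  have hfr : ∀ j ∈ S i, ∃ t, f t = j := by
    intro j hj
    have h1 : j ∈ Set.range ((S i).orderEmbOfFin rfl) := by
      rw [Finset.range_orderEmbOfFin]
      exact hj
    exact h1
  refine ⟨(S i).card, fun t => ret i v0 (u (f t)), fun t => ret i v0 (v (f t)),
    fun t => Q (f t), ?_, fun t => hQ (f t), ?_⟩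
  · rw [hs] at ht
    have := Nat.mul_le_mul_left 2 hmin
    omega
  · intro e he
    induction e using Sym2.ind with
    | _ x y =>
      have he2 : s(Sum.inr (i, x), Sum.inr (i, y)) ∈ (glue H K c v0).edgeSet := by
        rw [SimpleGraph.mem_edgeSet]
        rw [SimpleGraph.mem_edgeSet] at he
        exact ⟨rfl, he⟩
      obtain ⟨j, hj, hj2⟩ := hd _ he2
      have hjS : j ∈ S i := by
        rw [Finset.mem_filter]
        refine ⟨Finset.mem_univ _, ?_⟩
        rw [mem_tset]
        exact ⟨x, y, hj⟩
      obtain ⟨t, ht2⟩ := hfr j hjS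
      refine ⟨t, ?_, ?_⟩
      · show s(x, y) ∈ (Q (f t)).edges
        rw [hQe, ht2]
        exact hj
      · intro t' ht'
        have h3 : s(x, y) ∈ (Q (f t')).edges := ht'
        rw [hQe] at h3
        have h4 := hj2 _ h3
        apply hfi
        rw [ht2]
        exact h4

end Pool.Agent.Lib.MP_94420a_co_A
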